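import Pool.Agent.helper49.Pow.Circ

/-!
# Theorem V, from the count for large `Z` to the final statement
-/

namespace Pool.Agent.helper73.V

open Finset Pool.Agent.helper41.Coll Pool.Agent.helper49.Pow

/-- The count for all `Z` above a constant. -/
def Core2 (K : ℝ) : Prop :=
  ∃ K1 c0 C Z0 : ℝ, 0 < K1 ∧ K1 < K ∧ 0 < c0 ∧ ∀ (X : ℕ) (Z : ℝ), Z0 ≤ Z → Z ≤ X + 1 →
    ((EX K1 X Z).card : ℝ) ≤ C * (X + 1) * Z ^ (-c0)

theorem final2 {K : ℝ} (hcore : Core2 K) :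
    ∃ c C0 : ℝ, 0 < c ∧ ∀ (X : ℕ) (Z : ℝ), 1 ≤ Z →
      ((Nat.card {n : ℕ // 1 ≤ n ∧ n ≤ X ∧ ¬ ∃ j : ℕ, (j : ℝ) ≤ 4 * K * Real.log n ∧
        ((f^[j] n : ℕ) : ℝ) ≤ Z ∧
        ∀ C : ℕ, HasC n C → ∃ C' : ℕ, HasC (f^[j] n) C' ∧ (C : ℝ) ≤ K * Real.log n + C'} : ℕ) : ℝ) ≤
        C0 * X * Z ^ (-c) := by
  classical
  obtain ⟨K1, c0, C, Z0, hK1, hK1K, hc0, H⟩ := hcore
  have hK0 : 0 < K := hK1.trans hK1K
  obtain ⟨c1, hc1⟩ : ∃ c1 : ℝ, c1 = 1 - K1 / K := ⟨_, rfl⟩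
  have hc10 : 0 < c1 := by
    rw [hc1, sub_pos, div_lt_one hK0]
    exact hK1K
  obtain ⟨c, hc⟩ : ∃ c : ℝ, c = min c0 c1 := ⟨_, rfl⟩
  have hcpos : 0 < c := by rw [hc]; exact lt_min hc0 hc10
  have hcc0 : c ≤ c0 := by rw [hc]; exact min_le_left _ _
  have hcc1 : c ≤ c1 := by rw [hc]; exact min_le_right _ _
  obtain ⟨Z1, hZ1⟩ : ∃ Z1 : ℝ, Z1 = max Z0 1 := ⟨_, rfl⟩
  have hZ11 : 1 ≤ Z1 := by rw [hZ1]; exact le_max_right _ _
  have hZ10 : Z0 ≤ Z1 := by rw [hZ1]; exact le_max_left _ _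
  refine ⟨c, Z1 ^ c + 2 * max C 0 + 2, hcpos, ?_⟩
  intro X Z hZ
  have hZpos : 0 < Z := by linarith
  have hZ1pos : 0 < Z1 := by linarith
  have hC0 : 0 ≤ max C 0 := le_max_right _ _
  have hZc : 0 < Z ^ (-c) := by positivity
  have hZ1c : 0 < Z1 ^ c := by positivity
  have hXn : (0 : ℝ) ≤ X := Nat.cast_nonneg X
  -- the set of the exceptional integers
  obtain ⟨S, hS⟩ : ∃ S : Finset ℕ, S = (range (X + 1)).filter (fun n : ℕ => 1 ≤ n ∧
      ¬ ∃ j : ℕ, (j : ℝ) ≤ 4 * K * Real.log n ∧ ((f^[j] n : ℕ) : ℝ) ≤ Z ∧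
        ∀ C : ℕ, HasC n C → ∃ C' : ℕ, HasC (f^[j] n) C' ∧ (C : ℝ) ≤ K * Real.log n + C') :=
    ⟨_, rfl⟩
  have hcardS : Nat.card {n : ℕ // 1 ≤ n ∧ n ≤ X ∧ ¬ ∃ j : ℕ, (j : ℝ) ≤ 4 * K * Real.log n ∧
      ((f^[j] n : ℕ) : ℝ) ≤ Z ∧
      ∀ C : ℕ, HasC n C → ∃ C' : ℕ, HasC (f^[j] n) C' ∧ (C : ℝ) ≤ K * Real.log n + C'} ≤ S.card := by
    rw [← Nat.card_eq_finsetCard]
    refine Nat.card_le_card_of_injective (fun n => ⟨n.1, ?_⟩) ?_
    · obtain ⟨n, h1, h2, h3⟩ := n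
      show n ∈ S
      rw [hS, mem_filter, mem_range]
      exact ⟨by omega, h1, h3⟩
    · intro a b h
      have h1 := congrArg Subtype.val h
      exact Subtype.ext h1
  have hcardS' : ((Nat.card {n : ℕ // 1 ≤ n ∧ n ≤ X ∧ ¬ ∃ j : ℕ, (j : ℝ) ≤ 4 * K * Real.log n ∧
      ((f^[j] n : ℕ) : ℝ) ≤ Z ∧
      ∀ C : ℕ, HasC n C → ∃ C' : ℕ, HasC (f^[j] n) C' ∧ (C : ℝ) ≤ K * Real.log n + C'} : ℕ) : ℝ) ≤
      S.card := by exact_mod_cast hcardS
  refine hcardS'.trans ?_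
  have hmemS : ∀ n ∈ S, 1 ≤ n ∧ n ≤ X ∧ ¬ ∃ j : ℕ, (j : ℝ) ≤ 4 * K * Real.log n ∧
      ((f^[j] n : ℕ) : ℝ) ≤ Z ∧
      ∀ C : ℕ, HasC n C → ∃ C' : ℕ, HasC (f^[j] n) C' ∧ (C : ℝ) ≤ K * Real.log n + C' := by
    intro n hn
    rw [hS, mem_filter, mem_range] at hn
    exact ⟨hn.2.1, by omega, hn.2.2⟩
  -- the trivial bound
  have htriv : (S.card : ℝ) ≤ X := by
    have h1 : S ⊆ Icc 1 X := by
      intro n hn
      obtain ⟨h2, h3, -⟩ := hmemS n hn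
      exact mem_Icc.2 ⟨h2, h3⟩
    have h2 := card_le_card h1
    rw [Nat.card_Icc] at h2
    have h3 : S.card ≤ X := by omega
    exact_mod_cast h3
  have hmono : ∀ a : ℝ, a ≤ Z1 ^ c + 2 * max C 0 + 2 → (S.card : ℝ) ≤ a * X * Z ^ (-c) →
      (S.card : ℝ) ≤ (Z1 ^ c + 2 * max C 0 + 2) * X * Z ^ (-c) := by
    intro a ha h
    refine h.trans ?_
    exact mul_le_mul_of_nonneg_right (mul_le_mul_of_nonneg_right ha hXn) hZc.le
  by_cases hZX : (X : ℝ) + 1 < Z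
  · -- every `n ≤ X` is below `Z`
    have h0 : S = ∅ := by
      apply eq_empty_of_forall_notMem
      intro n hn
      obtain ⟨h1, h2, h3⟩ := hmemS n hn
      have h1' : (1 : ℝ) ≤ n := by exact_mod_cast h1
      have h2' : (n : ℝ) ≤ X := by exact_mod_cast h2
      have hlog : 0 ≤ Real.log n := Real.log_nonneg h1'
      refine h3 ⟨0, ?_, ?_, fun C hC => ⟨C, hC, ?_⟩⟩
      · push_cast
        positivity
      · show ((n : ℕ) : ℝ) ≤ Z
        linarith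
      · have : 0 ≤ K * Real.log n := mul_nonneg hK0.le hlog
        linarith
    rw [h0, card_empty]
    push_cast
    positivity
  have hZX' : Z ≤ X + 1 := not_lt.1 hZX
  by_cases hZ0 : Z < Z1
  · refine hmono (Z1 ^ c) (by linarith) ?_
    have h1 : 1 ≤ Z1 ^ c * Z ^ (-c) := by
      rw [Real.rpow_neg hZpos.le, ← div_eq_mul_inv, one_le_div (by positivity)]
      exact Real.rpow_le_rpow hZpos.le hZ0.le hcpos.le
    calc (S.card : ℝ) ≤ X := htriv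
      _ = X * 1 := (mul_one _).symm
      _ ≤ X * (Z1 ^ c * Z ^ (-c)) := mul_le_mul_of_nonneg_left h1 hXn
      _ = Z1 ^ c * X * Z ^ (-c) := by ring
  have hZ0' : Z1 ≤ Z := not_lt.1 hZ0
  rcases Nat.eq_zero_or_pos X with hX0 | hXpos
  · refine hmono 0 (by positivity) ?_
    have : (S.card : ℝ) ≤ X := htriv
    rw [hX0] at this ⊢
    push_cast at this ⊢
    linarith
  have hX1 : (1 : ℝ) ≤ X := by exact_mod_cast hXpos
  have hXp : (0 : ℝ) < X + 1 := by linarith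
  have hH := H X Z (hZ10.trans hZ0') hZX'
  -- the covering
  obtain ⟨N, hN⟩ : ∃ N : ℕ, N = ⌊((X : ℝ) + 1) ^ (K1 / K)⌋₊ := ⟨_, rfl⟩
  have hsub : S ⊆ EX K1 X Z ∪ Icc 1 N := by
    intro n hn
    obtain ⟨h1, h2, h3⟩ := hmemS n hn
    rw [mem_union, mem_Icc]
    by_cases hnN : n ≤ N
    · exact Or.inr ⟨h1, hnN⟩
    · left
      unfold EX
      rw [mem_filter, mem_range]
      refine ⟨by omega, fun h => h3 ?_⟩
      obtain ⟨j, g1, g2, g3, g4⟩ := h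
      have h1' : (1 : ℝ) ≤ n := by exact_mod_cast h1
      have hn0 : (0 : ℝ) < n := by linarith
      have hnN' : ((X : ℝ) + 1) ^ (K1 / K) ≤ n := by
        have h4 := Nat.lt_floor_add_one (((X : ℝ) + 1) ^ (K1 / K))
        rw [← hN] at h4
        have h5 : ((N + 1 : ℕ) : ℝ) ≤ n := by
          have : N + 1 ≤ n := by omega
          exact_mod_cast this
        push_cast at h5
        linarith
      have hlog : K1 * Real.log (X + 1) ≤ K * Real.log n := by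
        have h4 : Real.log (((X : ℝ) + 1) ^ (K1 / K)) ≤ Real.log n :=
          Real.log_le_log (by positivity) hnN'
        rw [Real.log_rpow hXp] at h4
        have h5 := mul_le_mul_of_nonneg_left h4 hK0.le
        have h6 : K * (K1 / K * Real.log (X + 1)) = K1 * Real.log (X + 1) := by
          field_simp
        linarith
      refine ⟨j, by linarith, ?_, fun C hC => ?_⟩
      · rw [iter_eq j n g2]
        exact g1.le
      · obtain ⟨C', hC', e⟩ := hasC_split g2 hC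
        refine ⟨C', hC', ?_⟩
        rw [e]
        push_cast
        linarith
  have hcard : (S.card : ℝ) ≤ (EX K1 X Z).card + ((X : ℝ) + 1) ^ (K1 / K) := by
    have h1 := (card_le_card hsub).trans (card_union_le _ _)
    rw [Nat.card_Icc, Nat.add_sub_cancel] at h1
    have h2 : (S.card : ℝ) ≤ (EX K1 X Z).card + N := by exact_mod_cast h1
    have h3 : (N : ℝ) ≤ ((X : ℝ) + 1) ^ (K1 / K) := by
      rw [hN]
      exact Nat.floor_le (by positivity)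
    linarith
  refine hmono (2 * max C 0 + 2) (by linarith) ?_
  have hX2 : (X : ℝ) + 1 ≤ 2 * X := by linarith
  have e1 : C * (X + 1) * Z ^ (-c0) ≤ 2 * max C 0 * X * Z ^ (-c) := by
    have h1 : Z ^ (-c0) ≤ Z ^ (-c) := Real.rpow_le_rpow_of_exponent_le hZ (by linarith)
    have h2 : C * (X + 1) ≤ max C 0 * (2 * X) :=
      (mul_le_mul_of_nonneg_right (le_max_left C 0) hXp.le).trans
        (mul_le_mul_of_nonneg_left hX2 hC0)
    have h3 : 0 ≤ max C 0 * (2 * X) := by positivity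
    calc C * (X + 1) * Z ^ (-c0) ≤ max C 0 * (2 * X) * Z ^ (-c0) :=
          mul_le_mul_of_nonneg_right h2 (by positivity)
      _ ≤ max C 0 * (2 * X) * Z ^ (-c) := mul_le_mul_of_nonneg_left h1 h3
      _ = 2 * max C 0 * X * Z ^ (-c) := by ring
  have e2 : ((X : ℝ) + 1) ^ (K1 / K) ≤ 2 * X * Z ^ (-c) := by
    have h1 : ((X : ℝ) + 1) ^ (K1 / K) = (X + 1) * (X + 1) ^ (-c1) := by
      have h2 : (X : ℝ) + 1 = (X + 1) ^ (1 : ℝ) := (Real.rpow_one _).symm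
      nth_rewrite 2 [h2]
      rw [← Real.rpow_add hXp]
      congr 1
      rw [hc1]
      ring
    have h3 : ((X : ℝ) + 1) ^ (-c1) ≤ Z ^ (-c) := by
      calc ((X : ℝ) + 1) ^ (-c1) ≤ (X + 1) ^ (-c) :=
            Real.rpow_le_rpow_of_exponent_le (by linarith) (by linarith)
        _ ≤ Z ^ (-c) := Real.rpow_le_rpow_of_nonpos hZpos hZX' (by linarith)
    rw [h1]
    calc ((X : ℝ) + 1) * (X + 1) ^ (-c1) ≤ (X + 1) * Z ^ (-c) :=
          mul_le_mul_of_nonneg_left h3 hXp.le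
      _ ≤ 2 * X * Z ^ (-c) := mul_le_mul_of_nonneg_right hX2 hZc.le
  calc (S.card : ℝ) ≤ (EX K1 X Z).card + ((X : ℝ) + 1) ^ (K1 / K) := hcard
    _ ≤ 2 * max C 0 * X * Z ^ (-c) + 2 * X * Z ^ (-c) := by linarith
    _ = (2 * max C 0 + 2) * X * Z ^ (-c) := by ring

end Pool.Agent.helper73.V
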